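import Pool.Agent.T2h24.VM.Few

/-!
# MP_e21eee_nt: Vinogradov's system and sets of difference vectors

Let `s > k ≥ 2`, and consider the solutions `(x, y)` in `[1, N]^s × [1, N]^s` of the system
`x_1^j + ... + x_s^j = y_1^j + ... + y_s^j`, `1 ≤ j ≤ k`, where `y` is not a permutation of `x`. Their
number is `J_{s,k}(N)` minus the number of the diagonal solutions. We bound the number of those for which
the vector of the differences `y_σ(i) - x_i`, for some permutation `σ`, belongs to a given set, up to at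
most `r` entries. The bounds have no `ε`.

Let `k < M ≤ s`, and `M = k + 1` or `2 (M - 1) (M - 2) + 4 < 3 k ^ 2`. (So `M` can be about
`1.22 k`.) Put `e = 1` for `r = 0` and `e = 0` otherwise. There are `δ > 0` and `C` with the
following properties for all `N ≥ 1`:

* for every finite set `𝓗` of integral vectors, the number of the non-diagonal solutions whose
  difference vector, for some ordering, agrees with a member of `𝓗` up to at most `r` entries is at most
  `C (N^(s-δ) + |𝓗| (N^(s+k-1-M-e) + N^(s-k+max(r,1))))`. In particular, arbitrary sets of at most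
  `N^θ` difference vectors contribute `O(N^(s-δ'))`, `δ' > 0`, if `θ < min(M + 2 - k, k - 1)`;
* the number of the non-diagonal solutions with at most `r` differences of absolute value
  larger than `H` is at most `C (N^(s-δ) + H^(M-1) N^(s+k-1-M-e) + H^(s-max(r,1)) N^(s-k+max(r,1)))`;
* the number of the non-diagonal solutions whose nonzero differences take at most `m` values is at most
  `C N^(s-δ)`, for all `m ≤ min(k - 1, M + 2 - k)`.

The proof. A difference vector `h` with `m ≥ M` nonzero entries contributes at most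
`C (N^(m-k+1) + N^(k-2)) N^(s-m)` solutions, since the differences of the polynomials `(x + h_i)^j - x^j`,
`j ≤ k`, determine finitely many values for the remaining variables outside a small exceptional set
(this is the counting of the starting file `NearDiagonal`); the solutions with fewer than `M` places at which
`x` and `y` differ are bounded by the starting file `PaucityLatticeChain`.
-/

set_option autoImplicit false

namespace Pool.Agent.Results.MP_e21eee_nt.DifferenceVectors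

open Finset
open Pool.Agent.T2h24.VM

/-- `x`, `y` is a solution of Vinogradov's system of degree `k` with entries in `[1, N]`, and `y` is
not a permutation of `x`. -/
def NonDiagonal {s : ℕ} (k N : ℕ) (x y : Fin s → ℕ) : Prop :=
  (∀ i, 1 ≤ x i ∧ x i ≤ N) ∧ (∀ i, 1 ≤ y i ∧ y i ≤ N) ∧
    (∀ j, 1 ≤ j → j ≤ k → ∑ i, x i ^ j = ∑ i, y i ^ j) ∧
    ¬ ∃ σ : Equiv.Perm (Fin s), ∀ i, y i = x (σ i)

/-- The number of the non-diagonal solutions with the property `Q`. -/
noncomputable def count (s k N : ℕ) (Q : (Fin s → ℕ) → (Fin s → ℕ) → Prop) : ℕ :=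
  {p : (Fin s → ℕ) × (Fin s → ℕ) | NonDiagonal k N p.1 p.2 ∧ Q p.1 p.2}.ncard

/-- The difference `y_σ(i) - x_i`. -/
def diff {s : ℕ} (σ : Equiv.Perm (Fin s)) (x y : Fin s → ℕ) (i : Fin s) : ℤ :=
  (y (σ i) : ℤ) - (x i : ℤ)

/-- For some ordering, the difference vector agrees with a member of `𝓗` up to at most `r` entries. -/
def InSet {s : ℕ} (𝓗 : Finset (Fin s → ℤ)) (r : ℕ) (x y : Fin s → ℕ) : Prop :=
  ∃ σ : Equiv.Perm (Fin s), ∃ h ∈ 𝓗, {i | diff σ x y i ≠ h i}.ncard ≤ r

/-- For some ordering, at most `r` differences have absolute value larger than `H`. -/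
def Near {s : ℕ} (H r : ℕ) (x y : Fin s → ℕ) : Prop :=
  ∃ σ : Equiv.Perm (Fin s), {i | (H : ℤ) < |diff σ x y i|}.ncard ≤ r

/-- For some ordering, the nonzero differences take at most `m` different values. -/
def FewDifferences {s : ℕ} (m : ℕ) (x y : Fin s → ℕ) : Prop :=
  ∃ σ : Equiv.Perm (Fin s), {d : ℤ | d ≠ 0 ∧ ∃ i, diff σ x y i = d}.ncard ≤ m

lemma nd_iff {s k N : ℕ} {p : (Fin s → ℕ) × (Fin s → ℕ)} :
    NonDiagonal k N p.1 p.2 ↔ p ∈ ND s k N := by
  rw [mem_ND, mem_Sol, NonDiagonal]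
  constructor
  · rintro ⟨h1, h2, h3, h4⟩
    refine ⟨⟨⟨fun i => mem_Icc.2 (h1 i), fun i => mem_Icc.2 (h2 i)⟩,
      fun j => h3 (j.val + 1) (by omega) (by omega)⟩, ?_⟩
    rintro ⟨σ, hσ⟩
    exact h4 ⟨σ, fun i => congrFun hσ i⟩
  · rintro ⟨⟨⟨h1, h2⟩, h3⟩, h4⟩
    refine ⟨fun i => mem_Icc.1 (h1 i), fun i => mem_Icc.1 (h2 i), fun j hj1 hj2 => ?_, ?_⟩
    · have := h3 ⟨j - 1, by omega⟩
      simpa [Nat.sub_add_cancel hj1] using this
    · rintro ⟨σ, hσ⟩
      exact h4 ⟨σ, funext hσ⟩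

lemma count_le (s k N : ℕ) (Q : (Fin s → ℕ) → (Fin s → ℕ) → Prop)
    (P : (Fin s → ℕ) × (Fin s → ℕ) → Prop) [DecidablePred P]
    (h : ∀ x y, NonDiagonal k N x y → Q x y → ∃ σ : Equiv.Perm (Fin s), P (x, y ∘ σ)) :
    count s k N Q ≤ s.factorial * ((ND s k N).filter P).card := by
  classical
  refine le_trans ?_ (perm_le s k N P)
  rw [count, ← Set.ncard_coe_finset]
  refine Set.ncard_le_ncard ?_ (Finset.finite_toSet _)
  rintro p ⟨h1, h2⟩
  rw [mem_coe, mem_filter]
  exact ⟨nd_iff.1 h1, h _ _ h1 h2⟩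

lemma ncard_filter {s : ℕ} (P : Fin s → Prop) [DecidablePred P] :
    {i | P i}.ncard = (univ.filter P).card := by
  rw [← Set.ncard_coe_finset]
  congr 1
  ext i
  simp

/-- the bound with a common constant -/
lemma real_bound {s n N A B : ℕ} {C0 δ0 δ : ℝ} {c W : ℕ} (hN : 1 ≤ N) (hδ : δ ≤ δ0) (hC0 : 0 ≤ C0)
    (hA : (A : ℝ) ≤ C0 * (N : ℝ) ^ ((s : ℝ) - δ0)) (hc : c ≤ s.factorial * (A + 2 ^ (2 * s) * B))
    (hB : B ≤ 3 ^ s * KK s n * W) :
    (c : ℝ) ≤ (s.factorial * C0 + s.factorial * (2 ^ (2 * s) * (3 ^ s * KK s n))) *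
      ((N : ℝ) ^ ((s : ℝ) - δ) + W) := by
  have hN1 : (1 : ℝ) ≤ (N : ℝ) := by exact_mod_cast hN
  have hpow : (N : ℝ) ^ ((s : ℝ) - δ0) ≤ (N : ℝ) ^ ((s : ℝ) - δ) :=
    Real.rpow_le_rpow_of_exponent_le hN1 (by linarith)
  have hP0 : (0 : ℝ) ≤ (N : ℝ) ^ ((s : ℝ) - δ) := by positivity
  have h1 : (c : ℝ) ≤ s.factorial * (A + 2 ^ (2 * s) * (3 ^ s * KK s n * W)) := by
    have : c ≤ s.factorial * (A + 2 ^ (2 * s) * (3 ^ s * KK s n * W)) :=
      hc.trans (Nat.mul_le_mul_left _ (Nat.add_le_add_left (Nat.mul_le_mul_left _ hB) _))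
    exact_mod_cast this
  have h2 : (A : ℝ) ≤ C0 * (N : ℝ) ^ ((s : ℝ) - δ) :=
    hA.trans (mul_le_mul_of_nonneg_left hpow hC0)
  have hf : (0 : ℝ) ≤ (s.factorial : ℝ) := by positivity
  have hK : (0 : ℝ) ≤ 2 ^ (2 * s) * (3 ^ s * (KK s n : ℝ)) := by positivity
  have hW : (0 : ℝ) ≤ (W : ℝ) := by positivity
  calc (c : ℝ) ≤ s.factorial * (A + 2 ^ (2 * s) * (3 ^ s * KK s n * W)) := h1
    _ ≤ s.factorial * (C0 * (N : ℝ) ^ ((s : ℝ) - δ) + 2 ^ (2 * s) * (3 ^ s * KK s n) * W) := by
        apply mul_le_mul_of_nonneg_left _ hf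
        linarith
    _ = (s.factorial * C0) * (N : ℝ) ^ ((s : ℝ) - δ) +
        (s.factorial * (2 ^ (2 * s) * (3 ^ s * KK s n))) * W := by ring
    _ ≤ (s.factorial * C0 + s.factorial * (2 ^ (2 * s) * (3 ^ s * KK s n))) *
          (N : ℝ) ^ ((s : ℝ) - δ) +
        (s.factorial * C0 + s.factorial * (2 ^ (2 * s) * (3 ^ s * KK s n))) * W := by
        apply add_le_add
        · exact mul_le_mul_of_nonneg_right (le_add_of_nonneg_right (mul_nonneg hf hK)) hP0
        · exact mul_le_mul_of_nonneg_right (le_add_of_nonneg_left (mul_nonneg hf hC0)) hW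
    _ = _ := by ring

/-- **Non-diagonal solutions of Vinogradov's system with restricted difference vectors.** -/
theorem result (s k M : ℕ) (hk : 2 ≤ k) (hkM : k < M) (hMs : M ≤ s)
    (hM : M = k + 1 ∨ 2 * (M - 1) * (M - 2) + 4 < 3 * k ^ 2) :
    ∃ δ : ℝ, 0 < δ ∧ ∃ C : ℝ, ∀ N : ℕ, 1 ≤ N →
      (∀ r, r ≤ s → ∀ 𝓗 : Finset (Fin s → ℤ), (count s k N (InSet 𝓗 r) : ℝ) ≤
        C * ((N : ℝ) ^ ((s : ℝ) - δ) + (𝓗.card : ℝ) *
          ((N : ℝ) ^ (s + k - 1 - M - if r = 0 then 1 else 0) + (N : ℝ) ^ (s - k + max r 1)))) ∧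
      (∀ r, r ≤ s → ∀ H : ℕ, 1 ≤ H → H ≤ N → (count s k N (Near H r) : ℝ) ≤
        C * ((N : ℝ) ^ ((s : ℝ) - δ) +
          ((H : ℝ) ^ (M - 1) * (N : ℝ) ^ (s + k - 1 - M - if r = 0 then 1 else 0) +
            (H : ℝ) ^ (s - max r 1) * (N : ℝ) ^ (s - k + max r 1)))) ∧
      (∀ m, m < k → m + k ≤ M + 2 →
        (count s k N (FewDifferences m) : ℝ) ≤ C * (N : ℝ) ^ ((s : ℝ) - δ)) := by
  classical
  have hpau : ∀ m, k < m → m < M → 2 * m * (m - 1) + 4 < 3 * k ^ 2 := by
    intro m h1 h2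
    rcases hM with h | h
    · omega
    · refine lt_of_le_of_lt (Nat.add_le_add_right ?_ 4) h
      exact Nat.mul_le_mul (Nat.mul_le_mul_left 2 (by omega)) (by omega)
  obtain ⟨δ0, hδ0, C0, hC0, hsmall⟩ := small_total s k M hpau
  obtain ⟨n, rfl⟩ : ∃ n, k = n + 1 := ⟨k - 1, by omega⟩
  set C2 : ℝ := s.factorial * C0 + s.factorial * (2 ^ (2 * s) * (3 ^ s * KK s n)) with hC2
  have hC2n : 0 ≤ C2 := by positivity
  set C3 : ℝ := 2 * ((n + 2) ^ s * 3 ^ (n + 1)) with hC3
  have hC3n : 0 ≤ C3 := by positivity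
  refine ⟨min δ0 1, lt_min hδ0 one_pos, C2 * (1 + C3), fun N hN => ?_⟩
  have hN1 : (1 : ℝ) ≤ (N : ℝ) := by exact_mod_cast hN
  have hA := hsmall N hN
  have hC : ∀ z : ℝ, 0 ≤ z → C2 * z ≤ C2 * (1 + C3) * z := by
    intro z hz
    apply mul_le_mul_of_nonneg_right _ hz
    nlinarith [mul_nonneg hC2n hC3n]
  have hset : ∀ r, r ≤ s → ∀ 𝓗 : Finset (Fin s → ℤ),
      (count s (n + 1) N (InSet 𝓗 r) : ℝ) ≤ C2 * ((N : ℝ) ^ ((s : ℝ) - min δ0 1) +
        ((𝓗.card * (N ^ (s + n - M - io r) + N ^ (s - (n + 1) + max r 1)) : ℕ) : ℝ)) := by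
    intro r hr 𝓗
    have hb := set_bound (s := s) (n := n) (M := M) (r := r) (by omega) (by omega) (by omega) N hN 𝓗
    have hc := (count_le s (n + 1) N (InSet 𝓗 r)
      (fun p => ∃ h ∈ 𝓗, (univ.filter fun i => (p.2 i : ℤ) - p.1 i ≠ h i).card ≤ r) (by
        rintro x y - ⟨σ, h, hh, hc⟩
        refine ⟨σ, h, hh, ?_⟩
        rw [ncard_filter] at hc
        exact hc)).trans (Nat.mul_le_mul_left _ hb)
    refine real_bound hN (min_le_left _ _) hC0 hA hc ?_
    calc 𝓗.card * (KK s n * (N ^ (s + n - M - io r) + N ^ (s - (n + 1) + max r 1)))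
        = 1 * KK s n * (𝓗.card * (N ^ (s + n - M - io r) + N ^ (s - (n + 1) + max r 1))) := by ring
      _ ≤ _ := Nat.mul_le_mul_right _ (Nat.mul_le_mul_right _ (Nat.one_le_pow _ _ (by norm_num)))
  have hexp : ∀ r : ℕ, (s + (n + 1) - 1 - M - if r = 0 then 1 else 0) = s + n - M - io r := by
    intro r
    unfold io
    rfl
  refine ⟨fun r hr 𝓗 => ?_, fun r hr H hH hHN => ?_, fun m hm hmM => ?_⟩
  · rw [hexp]
    have h1 := hset r hr 𝓗
    push_cast at h1
    exact h1.trans (hC _ (by positivity))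
  · rw [hexp]
    have hb := near_bound (s := s) (n := n) (M := M) (r := r) (by omega) (by omega) (by omega) N H
      hH hHN
    have hc := (count_le s (n + 1) N (Near H r)
      (fun p => (univ.filter fun i => (H : ℤ) < |(p.1 i : ℤ) - p.2 i|).card ≤ r) (by
        rintro x y - ⟨σ, hc⟩
        refine ⟨σ, ?_⟩
        rw [ncard_filter] at hc
        refine le_trans (le_of_eq ?_) hc
        congr 1
        ext i
        simp only [mem_filter, mem_univ, true_and, diff, Function.comp_apply]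
        rw [abs_sub_comm])).trans (Nat.mul_le_mul_left _ hb)
    have h1 := real_bound (W := H ^ (M - 1) * N ^ (s + n - M - io r) +
          H ^ (s - max r 1) * N ^ (s - (n + 1) + max r 1)) hN (min_le_left δ0 1) hC0 hA hc le_rfl
    push_cast at h1
    exact h1.trans (hC _ (by positivity))
  · have hsub : count s (n + 1) N (FewDifferences m) ≤
        count s (n + 1) N (InSet (FewV s m N) 0) := by
      apply Set.ncard_le_ncard
      · rintro p ⟨h1, σ, h2⟩
        refine ⟨h1, σ, diff σ p.1 p.2, ?_, ?_⟩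
        · obtain ⟨a1, a2, a3, a4⟩ := h1
          rw [FewV, mem_filter, Fintype.mem_piFinset]
          refine ⟨fun i => ?_, ?_, ?_, ?_⟩
          · have b1 := a1 i
            have b2 := a2 (σ i)
            rw [mem_Icc]
            unfold diff
            omega
          · intro h0
            refine a4 ⟨σ.symm, fun i => ?_⟩
            have := congrFun h0 (σ.symm i)
            simp only [diff, Equiv.apply_symm_apply, Pi.zero_apply] at this
            omega
          · have b := a3 1 le_rfl (by omega)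
            simp only [pow_one] at b
            have b' : ∑ i, (p.1 i : ℤ) = ∑ i, (p.2 i : ℤ) := by exact_mod_cast b
            have b2 : ∑ i, (p.2 (σ i) : ℤ) = ∑ i, (p.2 i : ℤ) :=
              Equiv.sum_comp σ fun i => (p.2 i : ℤ)
            unfold diff
            rw [sum_sub_distrib, b2, b', sub_self]
          · rw [← Set.ncard_coe_finset]
            refine le_trans (le_of_eq ?_) h2
            congr 1
            ext d
            simp [and_comm]
        · simp
      · refine Set.Finite.subset (Finset.finite_toSet (ND s (n + 1) N)) ?_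
        rintro p ⟨h1, -⟩
        exact nd_iff.1 h1
    have h1 := hset 0 (by omega) (FewV s m N)
    have hW : (FewV s m N).card * (N ^ (s + n - M - io 0) + N ^ (s - (n + 1) + max 0 1)) ≤
        2 * ((n + 2) ^ s * 3 ^ (n + 1)) * N ^ (s - 1) := by
      have hF : (FewV s m N).card ≤ (n + 2) ^ s * 3 ^ (n + 1) * N ^ (m - 1) := by
        refine (card_FewV s m N).trans ?_
        calc (m + 1) ^ s * (2 * N + 1) ^ (m - 1) ≤ (n + 2) ^ s * (3 * N) ^ (m - 1) :=
              Nat.mul_le_mul (Nat.pow_le_pow_left (by omega) _)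
                (Nat.pow_le_pow_left (by omega) _)
          _ = (n + 2) ^ s * 3 ^ (m - 1) * N ^ (m - 1) := by rw [mul_pow]; ring
          _ ≤ _ := Nat.mul_le_mul_right _ (Nat.mul_le_mul_left _
              (Nat.pow_le_pow_right (by norm_num) (by omega)))
      have e1 : N ^ (m - 1) * N ^ (s + n - M - io 0) ≤ N ^ (s - 1) := by
        rw [← pow_add, io_zero]
        exact Nat.pow_le_pow_right hN (by omega)
      have e2 : N ^ (m - 1) * N ^ (s - (n + 1) + max 0 1) ≤ N ^ (s - 1) := by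
        rw [← pow_add]
        exact Nat.pow_le_pow_right hN (by omega)
      calc (FewV s m N).card * (N ^ (s + n - M - io 0) + N ^ (s - (n + 1) + max 0 1))
          ≤ ((n + 2) ^ s * 3 ^ (n + 1) * N ^ (m - 1)) *
            (N ^ (s + n - M - io 0) + N ^ (s - (n + 1) + max 0 1)) := Nat.mul_le_mul_right _ hF
        _ = ((n + 2) ^ s * 3 ^ (n + 1)) * (N ^ (m - 1) * N ^ (s + n - M - io 0) +
            N ^ (m - 1) * N ^ (s - (n + 1) + max 0 1)) := by ring
        _ ≤ ((n + 2) ^ s * 3 ^ (n + 1)) * (N ^ (s - 1) + N ^ (s - 1)) :=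
            Nat.mul_le_mul_left _ (Nat.add_le_add e1 e2)
        _ = _ := by ring
    have hW' : (((FewV s m N).card * (N ^ (s + n - M - io 0) + N ^ (s - (n + 1) + max 0 1)) : ℕ) : ℝ) ≤
        C3 * (N : ℝ) ^ ((s : ℝ) - min δ0 1) := by
      refine (Nat.cast_le.2 hW).trans ?_
      push_cast
      rw [hC3]
      apply mul_le_mul_of_nonneg_left _ hC3n
      rw [← Real.rpow_natCast]
      apply Real.rpow_le_rpow_of_exponent_le hN1
      rw [Nat.cast_sub (by omega : 1 ≤ s), Nat.cast_one]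
      linarith [min_le_right δ0 (1 : ℝ)]
    calc (count s (n + 1) N (FewDifferences m) : ℝ)
        ≤ (count s (n + 1) N (InSet (FewV s m N) 0) : ℝ) := by exact_mod_cast hsub
      _ ≤ _ := h1
      _ ≤ C2 * ((N : ℝ) ^ ((s : ℝ) - min δ0 1) + C3 * (N : ℝ) ^ ((s : ℝ) - min δ0 1)) :=
          mul_le_mul_of_nonneg_left (by linarith) hC2n
      _ = _ := by ring

end Pool.Agent.Results.MP_e21eee_nt.DifferenceVectors
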