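import Pool.Agent.T2h24.VM.Prop
import Pool.Agent.Results.MP_e21eee_nt.DifferenceVectors

/-!
# MP_e21eee_nt: Vinogradov's system, differences in a small ratio and common moduli

Let `s > k ≥ 2`, and consider the solutions `(x, y)` in `[1, N]^s × [1, N]^s` of the system
`x_1^j + ... + x_s^j = y_1^j + ... + y_s^j`, `1 ≤ j ≤ k`, where `y` is not a permutation of `x`. The file
`DifferenceVectors` (and the starting file `NearDiagonal`) bounds the number of those with small
differences `y_σ(i) - x_i`. Here only the ratios of the differences are small: for some permutation `σ`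
and some integer `q`, all differences but at most `r` are multiples `q t_i` with `|t_i| ≤ B`, whatever
the size of `q`. For instance, this is the case with `B = N / Q` if `x_i` and `y_σ(i)` are congruent modulo
some `q ≥ Q` for all but at most `r` of the `i`. So the second part of the theorem is the analogue of
`NearDiagonal` for congruences.

Let `k < M ≤ s`, and `M = k + 1` or `2 (M - 1) (M - 2) + 4 < 3 k ^ 2`, and let `r < k`. Put `e = 1`
for `r = 0` and `e = 0` otherwise. There are `δ > 0` and `C` such that for all `N ≥ 1` and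
`1 ≤ B ≤ N` the number of these solutions is at most
`C (N^(s-δ) + B^(M-2) N^(s+k-M-e) + B^(s-1-max(r,1)) N^(s-k+1+max(r,1)))`. For `r = 0`, `M = k + 1` and
`B = N^θ`, this is `O(N^(s-δ'))`, `δ' > 0`, if `θ < min(2 / (k - 1), (k - 2) / (s - 2))`.

The proof. There are at most `C N B^(m-2)` vectors of sum zero with `m ≥ 3` nonzero entries at most
`N` which are multiples of vectors with entries at most `B` (`card_Mul`), and a given difference
vector contributes at most `C (N^(s-k+1) + N^(k-2+s-m))` solutions, as in `NearDiagonal`. The solutions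
with fewer than `M` places at which `x` and `y` differ are bounded by the starting file
`PaucityLatticeChain`.
-/

set_option autoImplicit false

namespace Pool.Agent.Results.MP_e21eee_nt.ProportionalDifferences

open Finset
open Pool.Agent.T2h24.VM
open Pool.Agent.Results.MP_e21eee_nt.DifferenceVectors (NonDiagonal count diff nd_iff count_le
  ncard_filter real_bound)

/-- For some ordering and some integer `q`, all but at most `r` of the differences are of the form
`q t` with an integer `t` of absolute value at most `B`. -/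
def Proportional {s : ℕ} (B r : ℕ) (x y : Fin s → ℕ) : Prop :=
  ∃ (σ : Equiv.Perm (Fin s)) (q : ℕ),
    {i | ¬ ∃ t : ℤ, |t| ≤ (B : ℤ) ∧ diff σ x y i = q * t}.ncard ≤ r

/-- For some ordering and some integer `q ≥ Q`, all but at most `r` of the differences are
divisible by `q`. -/
def CommonModulus {s : ℕ} (Q r : ℕ) (x y : Fin s → ℕ) : Prop :=
  ∃ (σ : Equiv.Perm (Fin s)) (q : ℕ), Q ≤ q ∧ {i | ¬ (q : ℤ) ∣ diff σ x y i}.ncard ≤ r

/-- **Non-diagonal solutions of Vinogradov's system whose differences have small ratios.** -/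
theorem result (s k M : ℕ) (hk : 2 ≤ k) (hkM : k < M) (hMs : M ≤ s)
    (hM : M = k + 1 ∨ 2 * (M - 1) * (M - 2) + 4 < 3 * k ^ 2) :
    ∃ δ : ℝ, 0 < δ ∧ ∃ C : ℝ, ∀ N : ℕ, 1 ≤ N → ∀ r : ℕ, r < k →
      (∀ B : ℕ, 1 ≤ B → B ≤ N → (count s k N (Proportional B r) : ℝ) ≤
        C * ((N : ℝ) ^ ((s : ℝ) - δ) +
          ((B : ℝ) ^ (M - 2) * (N : ℝ) ^ (s + k - M - if r = 0 then 1 else 0) +
            (B : ℝ) ^ (s - 1 - max r 1) * (N : ℝ) ^ (s - k + 1 + max r 1)))) ∧
      (∀ Q : ℕ, 1 ≤ Q → Q ≤ N → (count s k N (CommonModulus Q r) : ℝ) ≤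
        C * ((N : ℝ) ^ ((s : ℝ) - δ) +
          (((N : ℝ) / Q) ^ (M - 2) * (N : ℝ) ^ (s + k - M - if r = 0 then 1 else 0) +
            ((N : ℝ) / Q) ^ (s - 1 - max r 1) * (N : ℝ) ^ (s - k + 1 + max r 1)))) := by
  classical
  have hpau : ∀ m, k < m → m < M → 2 * m * (m - 1) + 4 < 3 * k ^ 2 := by
    intro m h1 h2
    rcases hM with h | h
    · omega
    · refine lt_of_le_of_lt (Nat.add_le_add_right ?_ 4) h
      exact Nat.mul_le_mul (Nat.mul_le_mul_left 2 (by omega)) (by omega)
  obtain ⟨δ, hδ, C0, hC0, hsmall⟩ := small_total s k M hpau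
  obtain ⟨n, rfl⟩ : ∃ n, k = n + 1 := ⟨k - 1, by omega⟩
  set C2 : ℝ := s.factorial * C0 + s.factorial * (2 ^ (2 * s) * (3 ^ s * KK s n)) with hC2
  have hC2n : 0 ≤ C2 := by positivity
  refine ⟨δ, hδ, C2 * (1 + 2 * s), fun N hN r hr => ?_⟩
  have hA := hsmall N hN
  have hexp : (s + (n + 1) - M - if r = 0 then 1 else 0) = s + n + 1 - M - io r := by
    unfold io
    rfl
  have hexp2 : s - (n + 1) + 1 + max r 1 = s - n + max r 1 := by omega
  rw [hexp, hexp2]
  have h1 : ∀ B : ℕ, 1 ≤ B → B ≤ N → (count s (n + 1) N (Proportional B r) : ℝ) ≤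
      C2 * (1 + 2 * s) * ((N : ℝ) ^ ((s : ℝ) - δ) +
        ((B : ℝ) ^ (M - 2) * (N : ℝ) ^ (s + n + 1 - M - io r) +
          (B : ℝ) ^ (s - 1 - max r 1) * (N : ℝ) ^ (s - n + max r 1))) := by
    intro B hB hBN
    have hb := prop_bound (s := s) (n := n) (M := M) (r := r) (by omega) (by omega) (by omega)
      (by omega) N B hB hBN
    have hc := (count_le s (n + 1) N (Proportional B r)
      (fun p => ∃ (q : ℕ) (t : Fin s → ℤ), (∀ i, |t i| ≤ (B : ℤ)) ∧
        (univ.filter fun i => (p.2 i : ℤ) - p.1 i ≠ q * t i).card ≤ r) (by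
        rintro x y - ⟨σ, q, hc⟩
        have hch : ∀ i, ∃ t : ℤ, |t| ≤ (B : ℤ) ∧
            ((∃ t : ℤ, |t| ≤ (B : ℤ) ∧ diff σ x y i = q * t) → diff σ x y i = q * t) := by
          intro i
          by_cases h : ∃ t : ℤ, |t| ≤ (B : ℤ) ∧ diff σ x y i = q * t
          · obtain ⟨t, ht1, ht2⟩ := h
            exact ⟨t, ht1, fun _ => ht2⟩
          · exact ⟨0, by simp, fun h' => absurd h' h⟩
        choose t ht1 ht2 using hch
        refine ⟨σ, q, t, ht1, ?_⟩
        rw [ncard_filter] at hc
        refine le_trans (card_le_card ?_) hc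
        intro i hi
        rw [mem_filter] at hi ⊢
        exact ⟨hi.1, fun h => hi.2 (ht2 i h)⟩)).trans (Nat.mul_le_mul_left _ hb)
    have h1 := real_bound (W := 2 * s * (B ^ (M - 2) * N ^ (s + n + 1 - M - io r) +
          B ^ (s - 1 - max r 1) * N ^ (s - n + max r 1))) hN le_rfl hC0 hA hc (by
      exact le_of_eq (by ring))
    push_cast at h1
    have hW : (0 : ℝ) ≤ (B : ℝ) ^ (M - 2) * (N : ℝ) ^ (s + n + 1 - M - io r) +
          (B : ℝ) ^ (s - 1 - max r 1) * (N : ℝ) ^ (s - n + max r 1) := by positivity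
    have hP : (0 : ℝ) ≤ (N : ℝ) ^ ((s : ℝ) - δ) := by positivity
    have hs0 : (0 : ℝ) ≤ (s : ℝ) := by positivity
    refine h1.trans ?_
    rw [← hC2, mul_assoc C2]
    apply mul_le_mul_of_nonneg_left _ hC2n
    nlinarith [mul_nonneg hs0 hP]
  refine ⟨h1, fun Q hQ hQN => ?_⟩
  have hQR : (0 : ℝ) < (Q : ℝ) := by exact_mod_cast hQ
  have hB1 : 1 ≤ N / Q := (Nat.one_le_div_iff hQ).2 hQN
  have hsub : count s (n + 1) N (CommonModulus Q r) ≤
      count s (n + 1) N (Proportional (N / Q) r) := by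
    apply Set.ncard_le_ncard
    · rintro p ⟨h2, σ, q, hq, hc⟩
      refine ⟨h2, σ, q, le_trans (Set.ncard_le_ncard ?_ (Set.toFinite _)) hc⟩
      rintro i hi ⟨t, ht⟩
      refine hi ⟨t, ?_, ht⟩
      obtain ⟨a1, a2, -, -⟩ := h2
      have b1 := a1 i
      have b2 := a2 (σ i)
      have hd : |diff σ p.1 p.2 i| ≤ N := by
        rw [abs_le]
        unfold diff
        constructor <;> omega
      rw [ht, abs_mul, Nat.abs_cast] at hd
      have h3 : t.natAbs * Q ≤ N := by
        have h4 : ((t.natAbs * q : ℕ) : ℤ) ≤ N := by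
          push_cast
          rw [mul_comm]
          exact hd
        have h5 : t.natAbs * q ≤ N := by exact_mod_cast h4
        exact (Nat.mul_le_mul_left _ hq).trans h5
      have h6 : t.natAbs ≤ N / Q := (Nat.le_div_iff_mul_le hQ).2 h3
      have h7 : |t| = (t.natAbs : ℤ) := by simp
      rw [h7]
      exact_mod_cast h6
    · refine Set.Finite.subset (Finset.finite_toSet (ND s (n + 1) N)) ?_
      rintro p ⟨h2, -⟩
      exact nd_iff.1 h2
  have hfl : ((N / Q : ℕ) : ℝ) ≤ (N : ℝ) / Q := Nat.cast_div_le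
  have hCn : 0 ≤ C2 * (1 + 2 * (s : ℝ)) := by positivity
  calc (count s (n + 1) N (CommonModulus Q r) : ℝ)
      ≤ (count s (n + 1) N (Proportional (N / Q) r) : ℝ) := by exact_mod_cast hsub
    _ ≤ _ := h1 (N / Q) hB1 (Nat.div_le_self _ _)
    _ ≤ _ := by
      apply mul_le_mul_of_nonneg_left _ hCn
      gcongr

end Pool.Agent.Results.MP_e21eee_nt.ProportionalDifferences
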